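import Pool.Agent.H78Z.Vor.D

open MeasureTheory Pool.Agent.H78Z.Vor

/-- Negative answer to Q1: for a Poisson point process of any intensity on the hyperbolic plane,
almost surely, for every vertex `x` of the Voronoi dual graph and every `δ`, some geodesic triangle
with vertex `x` is not `δ`-thin. -/
theorem Pool.Agent.Results.MP_c20824_pr.AnchoredFat.result
    (lam : ℝ) (hlam : 0 < lam) (Ω : Type) [MeasurableSpace Ω] (P : Measure Ω)
    [IsProbabilityMeasure P] (Pi : Ω → Set UpperHalfPlane) (h : IsPoissonPP P lam Pi) :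
    ∀ᵐ ω ∂P, (Pi ω).Nonempty ∧ ∀ (x : Pi ω) (δ : ℝ), ∃ (y z : Pi ω)
      (p : (vorGraph (Pi ω)).Walk x y) (q : (vorGraph (Pi ω)).Walk y z)
      (r : (vorGraph (Pi ω)).Walk z x), IsGeod p ∧ IsGeod q ∧ IsGeod r ∧ ¬ IsThin δ p q r :=
  main h hlam
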